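import Pool.Agent.Helper80_RS.Stmts

/-!
# MP_ff6f12_co, squad RS: basic lemmas (helper60)
-/

set_option autoImplicit false

open SimpleGraph

namespace Pool.Agent.RS80.H60

variable {V W K L : Type}

/-! ### Arrows -/

theorem arrows_mono {G : SimpleGraph K} {G' : SimpleGraph L} {H : SimpleGraph W} (h : G ⊑ G')
    (hG : Arrows G H) : Arrows G' H := by
  obtain ⟨f⟩ := h
  intro R' hR'
  rcases hG (R'.comap f ⊓ G) inf_le_right with hg | hg
  · obtain ⟨g⟩ := hg
    left
    refine ⟨⟨⟨fun x => f (g x), ?_⟩, ?_⟩⟩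
    · intro a b hab
      exact (g.toHom.map_adj hab).1
    · intro a b hab
      exact g.injective (f.injective hab)
  · obtain ⟨g⟩ := hg
    right
    refine ⟨⟨⟨fun x => f (g x), ?_⟩, ?_⟩⟩
    · intro a b hab
      have h1 := g.toHom.map_adj hab
      rw [sdiff_adj] at h1 ⊢
      exact ⟨f.toHom.map_adj h1.1, fun h2 => h1.2 ⟨h2, h1.1⟩⟩
    · intro a b hab
      exact g.injective (f.injective hab)

theorem arrows_of_iso {G : SimpleGraph K} {G' : SimpleGraph L} {H : SimpleGraph W}
    (e : G ≃g G') (hG : Arrows G H) : Arrows G' H :=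
  arrows_mono ⟨e.toEmbedding.toCopy⟩ hG

theorem not_arrows_iff {G : SimpleGraph K} {H : SimpleGraph W} : ¬ Arrows G H ↔ InC H G := by
  constructor
  · intro h
    unfold Arrows at h
    rw [not_forall] at h
    obtain ⟨R, h⟩ := h
    rw [Classical.not_imp, not_or] at h
    obtain ⟨hR, h1, h2⟩ := h
    exact ⟨R, G \ R, sup_sdiff_cancel_right hR, h1, h2⟩
  · rintro ⟨R, S, hRS, h1, h2⟩ h
    have hR : R ≤ G := by rw [← hRS]; exact le_sup_left
    rcases h R hR with h3 | h3
    · exact h1 h3
    · apply h2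
      refine h3.trans ?_
      apply IsContained.of_le
      rw [← hRS]
      exact sdiff_le_iff.2 le_rfl

/-! ### Two-connected graphs -/

theorem two_nbrs [Finite V] {B : SimpleGraph V} (hB : TwoConn B) (v : V) :
    ∃ w w', w ≠ w' ∧ B.Adj v w ∧ B.Adj v w' := by
  obtain ⟨h3, hc, hd⟩ := hB
  have := Fintype.ofFinite V
  classical
  have hn : Nontrivial V := by
    rw [← Finite.one_lt_card_iff_nontrivial]
    omega
  obtain ⟨w, hw⟩ := hc.preconnected.exists_adj_of_nontrivial v
  have hnt : Nontrivial ({w}ᶜ : Set V) := by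
    rw [← Finite.one_lt_card_iff_nontrivial]
    have : Nat.card ({w}ᶜ : Set V) = Nat.card V - 1 := by
      rw [Nat.card_eq_fintype_card, Nat.card_eq_fintype_card, Fintype.card_compl_set]
      simp
    omega
  obtain ⟨w', hw'⟩ := (hd w).preconnected.exists_adj_of_nontrivial ⟨v, hw.ne⟩
  exact ⟨w, w', fun h => w'.2 h.symm, hw, hw'⟩

/-! ### The graph with pendant edges -/

theorem pend_connected {B : SimpleGraph V} (hB : B.Connected) (Z : Set V) :
    (pend B Z).Connected := by
  obtain ⟨v⟩ := hB.nonempty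
  have h1 : ∀ u : V, (pend B Z).Reachable (Sum.inl u) (Sum.inl v) := by
    intro u
    have := hB.preconnected u v
    let f : B →g pend B Z := ⟨Sum.inl, fun {a b} h => h⟩
    exact this.map f
  have h2 : ∀ x : V ⊕ Z, (pend B Z).Reachable x (Sum.inl v) := by
    rintro (u | z)
    · exact h1 u
    · refine Reachable.trans ?_ (h1 z)
      exact (show (pend B Z).Adj (Sum.inr z) (Sum.inl (z : V)) from rfl).reachable
  have : Nonempty (V ⊕ Z) := ⟨Sum.inl v⟩
  exact ⟨fun x y => (h2 x).trans (h2 y).symm⟩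

theorem pend_adj {B : SimpleGraph V} [Finite V] (hB : TwoConn B) (Z : Set V) (x : V ⊕ Z) :
    ∃ y, (pend B Z).Adj x y := by
  rcases x with u | z
  · obtain ⟨w, _, _, h, _⟩ := two_nbrs hB u
    exact ⟨Sum.inl w, h⟩
  · exact ⟨Sum.inl z, rfl⟩

theorem le_pend (B : SimpleGraph V) (Z : Set V) : B ⊑ pend B Z :=
  ⟨⟨⟨Sum.inl, fun {_ _} h => h⟩, Sum.inl_injective⟩⟩

theorem pend_colorable {B : SimpleGraph V} (hc : B.Colorable 2) (Z : Set V) :
    ∃ c : V ⊕ Z → Bool, ∀ x y, (pend B Z).Adj x y → c x ≠ c y := by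
  obtain ⟨c⟩ := hc
  refine ⟨fun x => match x with
    | .inl u => decide (c u = 0)
    | .inr z => ! decide (c z = 0), ?_⟩
  have key : ∀ u v, B.Adj u v → decide (c u = 0) ≠ decide (c v = 0) := by
    intro u v h
    have := c.valid h
    intro h2
    apply this
    have h3 : (c u = 0) ↔ (c v = 0) := by simpa using h2
    omega
  rintro (u | z) (v | w) h
  · exact key u v h
  · have : u = w := h
    subst this
    simp
  · have : v = z := h
    subst this
    simp
  · exact h.elim

/-! ### Complete bipartite graphs -/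

theorem cbg_iff {α β : Type} {x y : α ⊕ β} : (completeBipartiteGraph α β).Adj x y ↔
    (x.isLeft ∧ y.isRight) ∨ (x.isRight ∧ y.isLeft) := Iff.rfl

/-- pigeonhole for patterns -/
theorem pattern {m N n' : ℕ} (hN : 2 ^ m * n' ≤ N) (R : Fin m → Fin N → Prop) :
    ∃ (A : Finset (Fin m)) (J : Finset (Fin N)), n' ≤ J.card ∧ ∀ j ∈ J, ∀ i, i ∈ A ↔ R i j := by
  classical
  obtain ⟨A, hA⟩ := Fintype.exists_le_card_fiber_of_mul_le_card
    (fun j : Fin N => Finset.univ.filter (fun i => R i j)) (n := n')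
    (by rw [Fintype.card_finset, Fintype.card_fin, Fintype.card_fin]; exact hN)
  refine ⟨A, _, hA, fun j hj i => ?_⟩
  rw [Finset.mem_filter] at hj
  rw [← hj.2, Finset.mem_filter]
  simp

/-- copies of complete bipartite graphs -/
theorem embed {m N a n' : ℕ} {G : SimpleGraph K} {u : Fin m → K} {v : Fin N → K}
    (hu : Function.Injective u) (hv : Function.Injective v) {A : Finset (Fin m)}
    {J : Finset (Fin N)} (ha : a ≤ A.card) (hn : n' ≤ J.card)
    (hadj : ∀ i ∈ A, ∀ j ∈ J, G.Adj (u i) (v j)) :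
    completeBipartiteGraph (Fin a) (Fin n') ⊑ G := by
  obtain ⟨A', hA', hAc⟩ := Finset.exists_subset_card_eq ha
  obtain ⟨J', hJ', hJc⟩ := Finset.exists_subset_card_eq hn
  let eA := A'.equivFinOfCardEq hAc
  let eJ := J'.equivFinOfCardEq hJc
  refine ⟨⟨⟨fun x => match x with
    | .inl i => u (eA.symm i)
    | .inr j => v (eJ.symm j), ?_⟩, ?_⟩⟩
  · rintro (i | j) (i' | j') h
    · simp [completeBipartiteGraph] at h
    · exact hadj _ (hA' (eA.symm i).2) _ (hJ' (eJ.symm j').2)
    · exact (hadj _ (hA' (eA.symm i').2) _ (hJ' (eJ.symm j).2)).symm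
    · simp [completeBipartiteGraph] at h
  · rintro (i | j) (i' | j') h
    · have h1 : u (eA.symm i) = u (eA.symm i') := h
      have := eA.symm.injective (Subtype.ext (hu h1))
      rw [this]
    · exfalso
      have h1 : u (eA.symm i) = v (eJ.symm j') := h
      have h2 := hadj _ (hA' (eA.symm i).2) _ (hJ' (eJ.symm j').2)
      rw [h1] at h2
      exact h2.ne rfl
    · exfalso
      have h1 : v (eJ.symm j) = u (eA.symm i') := h
      have h2 := hadj _ (hA' (eA.symm i').2) _ (hJ' (eJ.symm j).2)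
      rw [h1] at h2
      exact h2.ne rfl
    · have h1 : v (eJ.symm j) = v (eJ.symm j') := h
      have := eJ.symm.injective (Subtype.ext (hv h1))
      rw [this]

/-- a bipartite graph is contained in a complete bipartite graph -/
theorem le_cbg [Finite W] {H : SimpleGraph W} {c : W → Bool} (hc : ∀ x y, H.Adj x y → c x ≠ c y)
    {n : ℕ} (hn : Nat.card W = n) : H ⊑ completeBipartiteGraph (Fin n) (Fin n) := by
  let e : W ≃ Fin n := Finite.equivFinOfCardEq hn
  refine ⟨⟨⟨fun x => if c x = true then .inl (e x) else .inr (e x), ?_⟩, ?_⟩⟩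
  · intro x y h
    have := hc x y h
    rw [cbg_iff]
    rcases hx : c x with _ | _ <;> rcases hy : c y with _ | _
    · rw [hx, hy] at this; exact absurd rfl this
    · right; simp
    · left; simp
    · rw [hx, hy] at this; exact absurd rfl this
  · intro x y h
    have h1 : (if c x = true then Sum.inl (e x) else Sum.inr (e x) : Fin n ⊕ Fin n) =
        if c y = true then Sum.inl (e y) else Sum.inr (e y) := h
    split_ifs at h1 with hx hy hy
    · exact e.injective (Sum.inl_injective h1)
    · exact e.injective (Sum.inr_injective h1)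

end Pool.Agent.RS80.H60
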