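import Pool.Agent.Helper60_RS.Ktt

/-!
# MP_ff6f12_co, squad RS: module KNN (helper60)
-/

set_option autoImplicit false

open SimpleGraph

namespace Pool.Agent.RS80.H60

variable {V : Type}

/-- KNN. -/
theorem knn : KnnStmt := by
  intro V _ B Z hB hcol _ harr heq
  obtain ⟨h, hh⟩ : ∃ h, Nat.card (V ⊕ Z) = h := ⟨_, rfl⟩
  obtain ⟨a, ha⟩ : ∃ a, smallSide (pend B Z) = a := ⟨_, rfl⟩
  have ha2 : 2 ≤ a := by rw [← ha]; exact two_le_smallSide hB hcol Z
  have hah : a ≤ h := by rw [← ha, ← hh]; exact smallSide_le hcol Z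
  rw [hh, ha] at harr
  have h1 := (heq _ _).1 harr
  refine (not_arrows_iff.2 ?_) h1
  let R : SimpleGraph (Fin (h + a - 2)) :=
    { Adj := fun x y => x ≠ y ∧ (((x : ℕ) < h - 1) ↔ ((y : ℕ) < h - 1))
      symm := ⟨fun x y hxy => ⟨hxy.1.symm, hxy.2.symm⟩⟩
      loopless := ⟨fun x hx => hx.1 rfl⟩ }
  let S : SimpleGraph (Fin (h + a - 2)) :=
    { Adj := fun x y => ¬ (((x : ℕ) < h - 1) ↔ ((y : ℕ) < h - 1))
      symm := ⟨fun x y hxy hyx => hxy hyx.symm⟩
      loopless := ⟨fun x hx => hx Iff.rfl⟩ }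
  have hconn := pend_connected hB.2.1 Z
  refine ⟨R, S, ?_, ?_, ?_⟩
  · ext x y
    rw [sup_adj, top_adj]
    constructor
    · rintro (h2 | h2)
      · exact h2.1
      · rintro rfl
        exact h2 Iff.rfl
    · intro h2
      by_cases h3 : ((x : ℕ) < h - 1) ↔ ((y : ℕ) < h - 1)
      · exact Or.inl ⟨h2, h3⟩
      · exact Or.inr h3
  · rintro ⟨f⟩
    obtain ⟨x0⟩ := hconn.nonempty
    have hconst : ∀ x, (((f x : Fin (h + a - 2)) : ℕ) < h - 1 ↔
        ((f x0 : Fin (h + a - 2)) : ℕ) < h - 1) := by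
      intro x
      obtain ⟨w⟩ := hconn.preconnected x x0
      induction w with
      | nil => exact Iff.rfl
      | cons hab _ ih => exact ((f.toHom.map_adj hab).2).trans ih
    by_cases hx : ((f x0 : Fin (h + a - 2)) : ℕ) < h - 1
    · have h2 : Nat.card (V ⊕ Z) ≤ Nat.card (Fin (h - 1)) := by
        refine Nat.card_le_card_of_injective
          (fun x : V ⊕ Z => (⟨(f x : Fin (h + a - 2)), (hconst x).2 hx⟩ : Fin (h - 1))) ?_
        intro x y hxy
        have h4 : ((f x : Fin (h + a - 2)) : ℕ) = ((f y : Fin (h + a - 2)) : ℕ) :=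
          congrArg (fun z : Fin (h - 1) => (z : ℕ)) hxy
        exact f.injective (Fin.ext h4)
      rw [hh, Nat.card_eq_fintype_card, Fintype.card_fin] at h2
      omega
    · have hge : ∀ x, h - 1 ≤ ((f x : Fin (h + a - 2)) : ℕ) := by
        intro x
        by_contra h3
        exact hx ((hconst x).1 (by omega))
      have h2 : Nat.card (V ⊕ Z) ≤ Nat.card (Fin (a - 1)) := by
        refine Nat.card_le_card_of_injective
          (fun x : V ⊕ Z => (⟨((f x : Fin (h + a - 2)) : ℕ) - (h - 1), by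
            have := (f x : Fin (h + a - 2)).2
            have := hge x
            omega⟩ : Fin (a - 1))) ?_
        intro x y hxy
        have h4 : ((f x : Fin (h + a - 2)) : ℕ) - (h - 1) =
            ((f y : Fin (h + a - 2)) : ℕ) - (h - 1) := congrArg Fin.val hxy
        have h5 := hge x
        have h6 := hge y
        have h7 : ((f x : Fin (h + a - 2)) : ℕ) = ((f y : Fin (h + a - 2)) : ℕ) := by omega
        exact f.injective (Fin.ext h7)
      rw [hh, Nat.card_eq_fintype_card, Fintype.card_fin] at h2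
      omega
  · rintro ⟨f⟩
    refine lt_smallSide (m := a - 1) (by rw [ha]; omega) (h - 1) ?_
    refine IsContained.trans ⟨f⟩ ?_
    refine ⟨⟨⟨fun x => if hx : (x : ℕ) < h - 1 then .inr ⟨x, hx⟩ else
      .inl ⟨(x : ℕ) - (h - 1), by have := x.2; omega⟩, ?_⟩, ?_⟩⟩
    · intro x y hxy
      rw [cbg_iff]
      by_cases hx : (x : ℕ) < h - 1
      · by_cases hy : (y : ℕ) < h - 1
        · exact absurd (⟨fun _ => hy, fun _ => hx⟩) hxy
        · right
          rw [dif_pos hx, dif_neg hy]
          exact ⟨rfl, rfl⟩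
      · by_cases hy : (y : ℕ) < h - 1
        · left
          rw [dif_neg hx, dif_pos hy]
          exact ⟨rfl, rfl⟩
        · exact absurd (⟨fun h5 => absurd h5 hx, fun h5 => absurd h5 hy⟩) hxy
    · intro x y hxy
      change (if hx : (x : ℕ) < h - 1 then (.inr ⟨x, hx⟩ : Fin (a - 1) ⊕ Fin (h - 1)) else
        .inl ⟨(x : ℕ) - (h - 1), by have := x.2; omega⟩) = (if hy : (y : ℕ) < h - 1 then
        .inr ⟨y, hy⟩ else .inl ⟨(y : ℕ) - (h - 1), by have := y.2; omega⟩) at hxy
      split_ifs at hxy with hx hy hy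
      · have := congrArg Fin.val (Sum.inr_injective hxy)
        exact Fin.ext this
      · have := congrArg Fin.val (Sum.inl_injective hxy)
        simp only at this
        exact Fin.ext (by omega)

end Pool.Agent.RS80.H60
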