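import Pool.Agent.Helper60_RS.Basic

/-!
# MP_ff6f12_co, squad RS: modules KTT, HUB, KNN (helper60)
-/

set_option autoImplicit false

open SimpleGraph

namespace Pool.Agent.RS80.H60

variable {V : Type}

/-- KTT. -/
theorem ktt : KttStmt := by
  intro V _ B Z hB hcol
  obtain ⟨c, hc⟩ := pend_colorable hcol Z
  obtain ⟨h, hh⟩ : ∃ h, Nat.card (V ⊕ Z) = h := ⟨_, rfl⟩
  have hH := le_cbg hc hh
  refine ⟨2 ^ (2 * h) * h + 2 * h, ?_⟩
  intro K _ G hG hcon
  obtain ⟨R, S, hRS, hR, hS⟩ := hG
  obtain ⟨f⟩ := hcon
  let u : Fin (2 * h) → K := fun i => f (Sum.inl (Fin.castLE (by omega) i))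
  let v : Fin (2 ^ (2 * h) * h + 2 * h) → K := fun j => f (Sum.inr j)
  have hu : Function.Injective u := by
    intro i j hij
    have := Sum.inl_injective (f.injective hij)
    exact Fin.castLE_injective _ this
  have hv : Function.Injective v := by
    intro i j hij
    exact Sum.inr_injective (f.injective hij)
  have hG : ∀ i j, G.Adj (u i) (v j) := by
    intro i j
    apply f.toHom.map_adj
    rw [cbg_iff]
    left; simp
  obtain ⟨A, J, hJ, hAJ⟩ := pattern (m := 2 * h) (n' := h) (N := 2 ^ (2 * h) * h + 2 * h)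
    (by omega) (fun i j => R.Adj (u i) (v j))
  by_cases hA : h ≤ A.card
  · apply hR
    exact hH.trans (embed hu hv hA hJ fun i hi j hj => (hAJ j hj i).1 hi)
  · apply hS
    have hA' : h ≤ Aᶜ.card := by
      rw [Finset.card_compl, Fintype.card_fin]
      omega
    refine hH.trans (embed hu hv hA' hJ fun i hi j hj => ?_)
    have h1 := hG i j
    rw [← hRS, sup_adj] at h1
    rcases h1 with h1 | h1
    · exact absurd ((hAJ j hj i).2 h1) (Finset.mem_compl.1 hi)
    · exact h1

/-! ### The smaller side -/

theorem smallSide_spec [Finite V] {B : SimpleGraph V} (hcol : B.Colorable 2) (Z : Set V) :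
    ∃ N : ℕ, pend B Z ⊑ completeBipartiteGraph (Fin (smallSide (pend B Z))) (Fin N) := by
  obtain ⟨c, hc⟩ := pend_colorable hcol Z
  have hne : {m | ∃ N : ℕ, pend B Z ⊑ completeBipartiteGraph (Fin m) (Fin N)}.Nonempty :=
    ⟨_, _, le_cbg hc rfl⟩
  exact Nat.sInf_mem hne

theorem smallSide_le [Finite V] {B : SimpleGraph V} (hcol : B.Colorable 2) (Z : Set V) :
    smallSide (pend B Z) ≤ Nat.card (V ⊕ Z) := by
  obtain ⟨c, hc⟩ := pend_colorable hcol Z
  exact Nat.sInf_le ⟨_, le_cbg hc rfl⟩

theorem lt_smallSide {B : SimpleGraph V} {Z : Set V} {m : ℕ} (h : m < smallSide (pend B Z))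
    (N : ℕ) : ¬ pend B Z ⊑ completeBipartiteGraph (Fin m) (Fin N) := by
  intro h1
  exact absurd (Nat.sInf_le (s := {m | ∃ N : ℕ, pend B Z ⊑ completeBipartiteGraph (Fin m) (Fin N)})
    ⟨N, h1⟩) (not_le.2 h)

/-- the smaller side has at least two vertices -/
theorem two_le_smallSide [Finite V] {B : SimpleGraph V} (hB : TwoConn B) (hcol : B.Colorable 2)
    (Z : Set V) : 2 ≤ smallSide (pend B Z) := by
  by_contra hlt
  push Not at hlt
  obtain ⟨N, f⟩ := smallSide_spec hcol Z
  obtain ⟨f⟩ := (le_pend B Z).trans f
  -- two different vertices on the left are impossible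
  have hsub : ∀ x y : Fin (smallSide (pend B Z)), x = y := by
    intro x y
    apply Fin.ext
    omega
  obtain ⟨v⟩ := hB.2.1.nonempty
  obtain ⟨w, w', hww, h1, h2⟩ := two_nbrs hB v
  have key : ∀ x y, B.Adj x y → (f x).isLeft ∨ (f y).isLeft := by
    intro x y hxy
    have := f.toHom.map_adj hxy
    rw [cbg_iff] at this
    rcases this with h | h
    · left; exact h.1
    · right; exact h.2
  have inj : ∀ x y, (f x).isLeft → (f y).isLeft → x = y := by
    intro x y hx hy
    apply f.injective
    obtain ⟨a, ha⟩ := Sum.isLeft_iff.1 hx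
    obtain ⟨b, hb⟩ := Sum.isLeft_iff.1 hy
    rw [Copy.coe_toHom, ha, hb, hsub a b]
  by_cases hv : (f v).isLeft
  · -- a second neighbour of w
    obtain ⟨z, z', hzz, h3, h4⟩ := two_nbrs hB w
    have hwl : ¬ (f w).isLeft := fun h => h1.ne (inj _ _ hv h)
    have e1 : (f z).isLeft := (key w z h3).resolve_left hwl
    have e2 : (f z').isLeft := (key w z' h4).resolve_left hwl
    exact hzz (inj _ _ e1 e2)
  · have e1 : (f w).isLeft := (key v w h1).resolve_left hv
    have e2 : (f w').isLeft := (key v w' h2).resolve_left hv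
    exact hww (inj _ _ e1 e2)

/-- HUB. -/
theorem hub : HubStmt := by
  intro V _ B Z hB hcol d
  obtain ⟨a, ha⟩ : ∃ a, smallSide (pend B Z) = a := ⟨_, rfl⟩
  have ha2 : 2 ≤ a := by rw [← ha]; exact two_le_smallSide hB hcol Z
  obtain ⟨N₀, hN₀⟩ := smallSide_spec hcol Z
  rw [ha] at hN₀
  obtain ⟨n', hn'⟩ : ∃ n', n' = max d N₀ := ⟨_, rfl⟩
  have hH : pend B Z ⊑ completeBipartiteGraph (Fin a) (Fin n') := by
    refine hN₀.trans ?_
    refine embed (m := a) (N := n') (u := Sum.inl) (v := Sum.inr) Sum.inl_injective
      Sum.inr_injective (A := Finset.univ) (J := Finset.univ) (by simp) (by simp [hn']) ?_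
    intro i _ j _
    rw [cbg_iff]
    left; simp
  obtain ⟨m, hm⟩ : ∃ m, m = 2 * a - 2 := ⟨_, rfl⟩
  obtain ⟨N, hN⟩ : ∃ N, N = 2 ^ m * n' := ⟨_, rfl⟩
  refine ⟨m, N, ?_, ?_⟩
  · -- the colouring
    let R : SimpleGraph (Fin m ⊕ Fin N) :=
      { Adj := fun x y => match x, y with
          | .inl i, .inr _ => (i : ℕ) < a - 1
          | .inr _, .inl i => (i : ℕ) < a - 1
          | _, _ => False
        symm := ⟨by rintro (i | i) (j | j) h <;> exact h⟩
        loopless := ⟨by rintro (i | i) h <;> exact h⟩ }
    let S : SimpleGraph (Fin m ⊕ Fin N) :=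
      { Adj := fun x y => match x, y with
          | .inl i, .inr _ => a - 1 ≤ (i : ℕ)
          | .inr _, .inl i => a - 1 ≤ (i : ℕ)
          | _, _ => False
        symm := ⟨by rintro (i | i) (j | j) h <;> exact h⟩
        loopless := ⟨by rintro (i | i) h <;> exact h⟩ }
    refine ⟨R, S, ?_, ?_, ?_⟩
    · ext x y
      rw [sup_adj, cbg_iff]
      rcases x with i | i <;> rcases y with j | j
      · show False ∨ False ↔ _; simp
      · show (i : ℕ) < a - 1 ∨ a - 1 ≤ (i : ℕ) ↔ _
        exact ⟨fun _ => Or.inl ⟨rfl, rfl⟩, fun _ => lt_or_ge _ _⟩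
      · show (j : ℕ) < a - 1 ∨ a - 1 ≤ (j : ℕ) ↔ _
        exact ⟨fun _ => Or.inr ⟨rfl, rfl⟩, fun _ => lt_or_ge _ _⟩
      · show False ∨ False ↔ _; simp
    · rintro ⟨f⟩
      refine lt_smallSide (m := a - 1) (by rw [ha]; omega) N ⟨?_⟩
      have hl : ∀ x i, f x = Sum.inl i → (i : ℕ) < a - 1 := by
        intro x i hi
        obtain ⟨y, hy⟩ := pend_adj hB Z x
        have h1 := f.toHom.map_adj hy
        rw [Copy.coe_toHom, hi] at h1
        rcases hfy : f y with j | j
        · rw [hfy] at h1; exact h1.elim
        · rw [hfy] at h1; exact h1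
      refine ⟨⟨fun x => match h : f x with
        | .inl i => .inl ⟨i, hl x i h⟩
        | .inr j => .inr j, ?_⟩, ?_⟩
      · intro x y hxy
        have h1 := f.toHom.map_adj hxy
        rw [Copy.coe_toHom] at h1
        rw [cbg_iff]
        split <;> split
        · rename_i i hi j hj
          rw [hi, hj] at h1; exact h1.elim
        · left; simp
        · right; simp
        · rename_i i hi j hj
          rw [hi, hj] at h1; exact h1.elim
      · intro x y hxy
        apply f.injective
        rw [Copy.coe_toHom]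
        change (match h : f x with
          | .inl i => (.inl ⟨i, hl x i h⟩ : Fin (a - 1) ⊕ Fin N)
          | .inr j => .inr j) = (match h : f y with
          | .inl i => .inl ⟨i, hl y i h⟩
          | .inr j => .inr j) at hxy
        split at hxy <;> split at hxy
        · rename_i i hi j hj
          rw [hi, hj]
          have := congrArg Fin.val (Sum.inl_injective hxy)
          exact congrArg Sum.inl (Fin.ext this)
        · exact absurd hxy (by simp)
        · exact absurd hxy (by simp)
        · rename_i i hi j hj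
          rw [hi, hj]
          exact congrArg Sum.inr (Sum.inr_injective hxy)
    · rintro ⟨f⟩
      refine lt_smallSide (m := a - 1) (by rw [ha]; omega) N ⟨?_⟩
      have hl : ∀ x i, f x = Sum.inl i → a - 1 ≤ (i : ℕ) := by
        intro x i hi
        obtain ⟨y, hy⟩ := pend_adj hB Z x
        have h1 := f.toHom.map_adj hy
        rw [Copy.coe_toHom, hi] at h1
        rcases hfy : f y with j | j
        · rw [hfy] at h1; exact h1.elim
        · rw [hfy] at h1; exact h1
      refine ⟨⟨fun x => match h : f x with
        | .inl i => .inl ⟨(i : ℕ) - (a - 1), by have := i.2; have := hl x i h; omega⟩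
        | .inr j => .inr j, ?_⟩, ?_⟩
      · intro x y hxy
        have h1 := f.toHom.map_adj hxy
        rw [Copy.coe_toHom] at h1
        rw [cbg_iff]
        split <;> split
        · rename_i i hi j hj
          rw [hi, hj] at h1; exact h1.elim
        · left; simp
        · right; simp
        · rename_i i hi j hj
          rw [hi, hj] at h1; exact h1.elim
      · intro x y hxy
        apply f.injective
        rw [Copy.coe_toHom]
        change (match h : f x with
          | .inl i => (.inl ⟨(i : ℕ) - (a - 1), by have := i.2; have := hl x i h; omega⟩ :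
              Fin (a - 1) ⊕ Fin N)
          | .inr j => .inr j) = (match h : f y with
          | .inl i => .inl ⟨(i : ℕ) - (a - 1), by have := i.2; have := hl y i h; omega⟩
          | .inr j => .inr j) at hxy
        split at hxy <;> split at hxy
        · rename_i i hi j hj
          rw [hi, hj]
          have h5 := congrArg Fin.val (Sum.inl_injective hxy)
          simp only at h5
          have h6 := hl x i hi
          have h7 := hl y j hj
          exact congrArg Sum.inl (Fin.ext (by omega))
        · exact absurd hxy (by simp)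
        · exact absurd hxy (by simp)
        · rename_i i hi j hj
          rw [hi, hj]
          exact congrArg Sum.inr (Sum.inr_injective hxy)
  · -- every colouring has hubs of both colours
    intro R S hGd
    obtain ⟨hRS, hR, hS⟩ := hGd
    have hG : ∀ (i : Fin m) (j : Fin N), R.Adj (.inl i) (.inr j) ∨ S.Adj (.inl i) (.inr j) := by
      intro i j
      rw [← sup_adj, hRS, cbg_iff]
      left; simp
    obtain ⟨A, J, hJ, hAJ⟩ := pattern (m := m) (n' := n') (N := N) (by omega)
      (fun i j => R.Adj (.inl i) (.inr j))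
    have hAc : ∀ i, i ∉ A → ∀ j ∈ J, S.Adj (.inl i) (.inr j) := by
      intro i hi j hj
      exact (hG i j).resolve_left fun h => hi ((hAJ j hj i).2 h)
    have h1 : A.card < a := by
      by_contra hcon
      push Not at hcon
      exact hR (hH.trans (embed (u := Sum.inl) (v := Sum.inr) Sum.inl_injective
        Sum.inr_injective hcon hJ fun i hi j hj => (hAJ j hj i).1 hi))
    have h2 : Aᶜ.card < a := by
      by_contra hcon
      push Not at hcon
      exact hS (hH.trans (embed (u := Sum.inl) (v := Sum.inr) Sum.inl_injective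
        Sum.inr_injective hcon hJ fun i hi j hj => hAc i (Finset.mem_compl.1 hi) j hj))
    have h3 : A.card + Aᶜ.card = m := by
      rw [Finset.card_compl, Fintype.card_fin]
      have := Finset.card_le_univ A
      rw [Fintype.card_fin] at this
      omega
    have hdeg : ∀ (T : SimpleGraph (Fin m ⊕ Fin N)) (i : Fin m),
        (∀ j ∈ J, T.Adj (.inl i) (.inr j)) → d ≤ (T.neighborSet (.inl i)).ncard := by
      intro T i hT
      have h4 : (Sum.inr '' (J : Set (Fin N)) : Set (Fin m ⊕ Fin N)) ⊆ T.neighborSet (.inl i) := by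
        rintro _ ⟨j, hj, rfl⟩
        exact hT j hj
      have h5 := Set.ncard_le_ncard h4 (Set.toFinite _)
      rw [Set.ncard_image_of_injective _ Sum.inr_injective, Set.ncard_coe_finset] at h5
      have h6 : d ≤ n' := by rw [hn']; exact le_max_left _ _
      omega
    constructor
    · obtain ⟨i, hi⟩ : A.Nonempty := by
        rw [← Finset.card_pos]; omega
      exact ⟨_, hdeg R i fun j hj => (hAJ j hj i).1 hi⟩
    · obtain ⟨i, hi⟩ : Aᶜ.Nonempty := by
        rw [← Finset.card_pos]; omega
      exact ⟨_, hdeg S i fun j hj => hAc i (Finset.mem_compl.1 hi) j hj⟩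

end Pool.Agent.RS80.H60
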