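import Pool.Agent.Helper60_RS.Basic

/-!
# MP_ff6f12_co, squad RS: module STW (helper60)
-/

set_option autoImplicit false

open SimpleGraph

namespace Pool.Agent.RS80.H60

variable {V W K L : Type}

/-- a copy into a mapped graph lifts -/
theorem copy_of_map {H : SimpleGraph W} (hH : ∀ x, ∃ y, H.Adj x y) {R : SimpleGraph L}
    (e : L ↪ K) (h : H ⊑ R.map e) : H ⊑ R := by
  obtain ⟨f⟩ := h
  have h1 : ∀ x, ∃ l, e l = f x := by
    intro x
    obtain ⟨y, hy⟩ := hH x
    have h2 := f.toHom.map_adj hy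
    rw [map_adj] at h2
    obtain ⟨a, b, _, ha, _⟩ := h2
    exact ⟨a, ha⟩
  choose g hg using h1
  refine ⟨⟨⟨g, ?_⟩, ?_⟩⟩
  · intro x y hxy
    have h2 := f.toHom.map_adj hxy
    rw [Copy.coe_toHom, ← hg x, ← hg y, map_adj_apply] at h2
    exact h2
  · intro x y hxy
    apply f.injective
    have h2 : g x = g y := hxy
    rw [Copy.coe_toHom, ← hg x, ← hg y, h2]

/-- a minimal Ramsey graph has no isolated vertices -/
theorem no_isolated {H : SimpleGraph W} (hH : ∀ x, ∃ y, H.Adj x y) {G : SimpleGraph K}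
    (hG : MinRamsey G H) (u : K) : ∃ w, G.Adj u w := by
  by_contra hcon
  push Not at hcon
  have h1 : (⊤ : G.Subgraph).deleteVerts {u} ≠ ⊤ := by
    intro h
    have h2 : u ∈ ((⊤ : G.Subgraph).deleteVerts {u}).verts := by
      rw [h]; exact Set.mem_univ u
    rw [Subgraph.deleteVerts_verts] at h2
    exact h2.2 rfl
  obtain ⟨R, S, hRS, hR, hS⟩ := not_arrows_iff.1 (hG.2 _ h1)
  let e : ((⊤ : G.Subgraph).deleteVerts {u}).verts ↪ K := Function.Embedding.subtype _
  refine (not_arrows_iff.2 ⟨R.map e, S.map e, ?_, ?_, ?_⟩) hG.1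
  · ext a b
    rw [sup_adj, map_adj, map_adj]
    constructor
    · rintro (⟨a', b', hab, rfl, rfl⟩ | ⟨a', b', hab, rfl, rfl⟩)
      · have h2 : (R ⊔ S).Adj a' b' := Or.inl hab
        rw [hRS, Subgraph.coe_adj] at h2
        exact Subgraph.adj_sub _ h2
      · have h2 : (R ⊔ S).Adj a' b' := Or.inr hab
        rw [hRS, Subgraph.coe_adj] at h2
        exact Subgraph.adj_sub _ h2
    · intro hab
      have ha : a ≠ u := by rintro rfl; exact hcon _ hab
      have hb : b ≠ u := by rintro rfl; exact hcon _ hab.symm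
      have ha' : a ∈ ((⊤ : G.Subgraph).deleteVerts {u}).verts := by
        rw [Subgraph.deleteVerts_verts]
        exact ⟨Set.mem_univ _, ha⟩
      have hb' : b ∈ ((⊤ : G.Subgraph).deleteVerts {u}).verts := by
        rw [Subgraph.deleteVerts_verts]
        exact ⟨Set.mem_univ _, hb⟩
      have h2 : (R ⊔ S).Adj ⟨a, ha'⟩ ⟨b, hb'⟩ := by
        rw [hRS, Subgraph.coe_adj, Subgraph.deleteVerts_adj]
        exact ⟨Set.mem_univ _, ha, Set.mem_univ _, hb, hab⟩
      rcases h2 with h2 | h2
      · exact Or.inl ⟨_, _, h2, rfl, rfl⟩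
      · exact Or.inr ⟨_, _, h2, rfl, rfl⟩
  · exact fun h => hR (copy_of_map hH e h)
  · exact fun h => hS (copy_of_map hH e h)

/-- the size of a graph -/
noncomputable def mu (G : SimpleGraph K) : ℕ := Nat.card K + Nat.card {p : K × K // G.Adj p.1 p.2}

theorem mu_comap (e : L ≃ K) (G : SimpleGraph K) : mu (G.comap e) = mu G := by
  unfold mu
  rw [Nat.card_congr e]
  congr 1
  exact Nat.card_congr (Equiv.subtypeEquiv (e.prodCongr e) fun _ => Iff.rfl)

theorem mu_lt [Finite K] {G : SimpleGraph K} (G' : G.Subgraph) (h : G' ≠ ⊤) :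
    mu G'.coe < mu G := by
  unfold mu
  have h1 : Nat.card G'.verts ≤ Nat.card K := Finite.card_subtype_le _
  let φ : {p : G'.verts × G'.verts // G'.coe.Adj p.1 p.2} → {p : K × K // G.Adj p.1 p.2} :=
    fun p => ⟨(p.1.1, p.1.2), G'.adj_sub p.2⟩
  have hφ : Function.Injective φ := by
    rintro ⟨⟨a, b⟩, h⟩ ⟨⟨c, d⟩, h'⟩ hh
    have h3 := congrArg Subtype.val hh
    have h4 : ((a : K), (b : K)) = ((c : K), (d : K)) := h3
    rw [Prod.mk.injEq] at h4
    have h5 := Subtype.ext h4.1
    have h6 := Subtype.ext h4.2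
    subst h5
    subst h6
    rfl
  have h2 := Nat.card_le_card_of_injective φ hφ
  by_contra hcon
  apply h
  have h3 : Nat.card G'.verts = Nat.card K := by omega
  have h4 : Nat.card {p : G'.verts × G'.verts // G'.coe.Adj p.1 p.2} =
    Nat.card {p : K × K // G.Adj p.1 p.2} := by omega
  have h5 : Function.Bijective φ := by
    have := Fintype.ofFinite {p : G'.verts × G'.verts // G'.coe.Adj p.1 p.2}
    have := Fintype.ofFinite {p : K × K // G.Adj p.1 p.2}
    rw [Fintype.bijective_iff_injective_and_card]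
    refine ⟨hφ, ?_⟩
    rw [Nat.card_eq_fintype_card, Nat.card_eq_fintype_card] at h4
    exact h4
  have h6 : G'.verts = Set.univ := by
    apply Set.eq_of_subset_of_ncard_le (Set.subset_univ _)
    rw [Set.ncard_univ, ← h3]
    exact le_rfl
  ext a b
  · rw [h6]; rfl
  · constructor
    · exact fun hab => G'.adj_sub hab
    · intro hab
      obtain ⟨⟨⟨c, d⟩, hcd⟩, h7⟩ := h5.2 ⟨(a, b), hab⟩
      have h8 : ((c : K), (d : K)) = (a, b) := congrArg Subtype.val h7
      rw [Prod.mk.injEq] at h8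
      rw [← h8.1, ← h8.2]
      exact hcd

/-- STW. -/
theorem stw : StwStmt := by
  intro V _ B Z hB hZ hex
  obtain ⟨K, _, G, v, hG, hcone⟩ := hex
  classical
  have hH : ∀ x, ∃ y, (pend B Z).Adj x y := pend_adj hB Z
  -- the minimum degree of `H`
  have hdelta : @SimpleGraph.minDegree (V ⊕ Z) (pend B Z) (Fintype.ofFinite (V ⊕ Z)) _ = 1 := by
    let := Fintype.ofFinite (V ⊕ Z)
    obtain ⟨z, hz⟩ := hZ
    have : Nonempty (V ⊕ Z) := ⟨Sum.inr ⟨z, hz⟩⟩
    apply le_antisymm
    · refine (minDegree_le_degree (pend B Z) (Sum.inr ⟨z, hz⟩)).trans ?_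
      refine (degree_eq_one_iff_existsUnique_adj.2 ⟨Sum.inl z, rfl, ?_⟩).le
      rintro (u | w) h
      · exact congrArg Sum.inl h
      · exact h.elim
    · apply le_minDegree_of_forall_le_degree
      intro x
      rw [Nat.succ_le_iff, degree_pos_iff_exists_adj]
      exact hH x
  -- the smallest graph
  have hex : ∃ k, ∃ (L : Type) (_ : Finite L) (G' : SimpleGraph L), Arrows G' (pend B Z) ∧
      G' ⊑ cone G {v} ∧ mu G' = k :=
    ⟨_, Option K, inferInstance, cone G {v}, by
      by_contra h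
      exact hcone (not_arrows_iff.1 h), IsContained.refl _, rfl⟩
  obtain ⟨L, _, G', hG', hGc, hmu⟩ := Nat.find_spec hex
  have hmin := fun (k : ℕ) (hk : k < Nat.find hex) => Nat.find_min hex hk
  obtain ⟨n, ⟨e⟩⟩ : ∃ n, Nonempty (Fin n ≃ L) := ⟨Nat.card L, ⟨(Finite.equivFin L).symm⟩⟩
  have he : G'.comap e ≃g G' := Iso.comap e G'
  have hc1 : G'.comap e ⊑ cone G {v} := IsContained.trans ⟨he.toEmbedding.toCopy⟩ hGc
  have hMR : MinRamsey (G'.comap e) (pend B Z) := by
    refine ⟨arrows_of_iso he.symm hG', ?_⟩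
    intro G₂ hne hA
    have h1 := mu_lt G₂ hne
    rw [mu_comap, hmu] at h1
    exact hmin _ h1 ⟨G₂.verts, inferInstance, G₂.coe, hA,
      IsContained.trans G₂.coe_isContained hc1, rfl⟩
  have h01 : ∀ (n : ℕ) (G₁ : SimpleGraph (Fin n)), MinRamsey G₁ (pend B Z) →
      1 ≤ G₁.minDegree := by
    intro n G₁ h₁
    have : Nonempty (Fin n) := by
      by_contra hempty
      rw [not_nonempty_iff] at hempty
      obtain ⟨z, hz⟩ := hZ
      rcases h₁.1 ⊥ bot_le with ⟨⟨f⟩⟩ | ⟨⟨f⟩⟩
      · exact hempty.false (f (Sum.inl z))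
      · exact hempty.false (f (Sum.inl z))
    apply le_minDegree_of_forall_le_degree
    intro x
    rw [Nat.succ_le_iff, degree_pos_iff_exists_adj]
    exact no_isolated hH h₁ x
  have h1 : (G'.comap e).minDegree = 1 := by
    apply le_antisymm _ (h01 n _ hMR)
    obtain ⟨f⟩ := hc1
    obtain ⟨x, hx⟩ : ∃ x, f x = none := by
      by_contra hcon
      push Not at hcon
      have h2 : ∀ x, ∃ y, f x = some y := fun x => Option.ne_none_iff_exists'.1 (hcon x)
      choose g hg using h2
      refine not_arrows_iff.2 hG (arrows_mono ⟨⟨⟨g, ?_⟩, ?_⟩⟩ hMR.1)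
      · intro a b hab
        have h3 := f.toHom.map_adj hab
        rw [Copy.coe_toHom, hg a, hg b] at h3
        exact h3
      · intro a b hab
        have h3 : g a = g b := hab
        apply f.injective
        rw [Copy.coe_toHom, hg a, hg b, h3]
    refine ((G'.comap e).minDegree_le_degree x).trans ?_
    refine Finset.card_le_one.2 ?_
    have key : ∀ a, (G'.comap e).Adj x a → f a = some v := by
      intro a ha
      have h3 := f.toHom.map_adj ha
      rw [Copy.coe_toHom, hx] at h3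
      rcases hfa : f a with _ | y
      · rw [hfa] at h3; exact h3.elim
      · rw [hfa] at h3
        have h4 : y ∈ ({v} : Set K) := h3
        rw [Set.mem_singleton_iff.1 h4]
    intro a ha b hb
    rw [mem_neighborFinset] at ha hb
    exact f.injective (by rw [Copy.coe_toHom, key a ha, key b hb])
  unfold RamseySimple
  have hset : (1 : ℕ) ∈ {d | ∃ (n : ℕ) (G : SimpleGraph (Fin n)), MinRamsey G (pend B Z) ∧
      G.minDegree = d} := ⟨n, G'.comap e, hMR, h1⟩
  have hs2 : s2 (pend B Z) = 1 := by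
    unfold s2
    apply le_antisymm
    · exact Nat.sInf_le hset
    · obtain ⟨n₂, G₂, h₂, h₃⟩ := Nat.sInf_mem ⟨1, hset⟩
      rw [← h₃]
      exact h01 n₂ G₂ h₂
  rw [hs2, hdelta]

end Pool.Agent.RS80.H60
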